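import Pool.Agent.H84.FK.Targets

/-!
# Module KEG of the board fk_modules
-/

set_option autoImplicit false

namespace Pool.Agent.H85.FK

open Pool.Agent.H84.FK

variable {G : Type} [Group G]

/-- a subgroup which is the product of two `p`-subgroups is a `p`-group -/
lemma prod_pgroup [Finite G] {p : ℕ} (hp : p.Prime) {A C Z : Subgroup G}
    (hA : IsPGroup p A) (hC : IsPGroup p C) (_hAZ : A ≤ Z) (hCZ : C ≤ Z)
    (hZ : ∀ z ∈ Z, ∃ c ∈ C, ∃ a ∈ A, z = c * a) : IsPGroup p Z := by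
  have := Fact.mk hp
  set A' : Subgroup Z := A.subgroupOf Z with hA'
  set C' : Subgroup Z := C.subgroupOf Z with hC'
  have hbase : ∀ z : Z ⧸ A', ∃ c : C', c • ((1 : Z) : Z ⧸ A') = z := by
    intro z
    obtain ⟨z, rfl⟩ := QuotientGroup.mk_surjective z
    obtain ⟨c, hc, a, ha, hz⟩ := hZ z.1 z.2
    refine ⟨⟨⟨c, hCZ hc⟩, by rw [hC', Subgroup.mem_subgroupOf]; exact hc⟩, ?_⟩
    have e1 : (⟨⟨c, hCZ hc⟩, by rw [hC', Subgroup.mem_subgroupOf]; exact hc⟩ : C') •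
        ((1 : Z) : Z ⧸ A') = ((⟨c, hCZ hc⟩ * 1 : Z) : Z ⧸ A') := rfl
    rw [e1, mul_one, QuotientGroup.eq, hA', Subgroup.mem_subgroupOf]
    have e2 : (((⟨c, hCZ hc⟩ : Z)⁻¹ * z : Z) : G) = a := by
      rw [Subgroup.coe_mul, Subgroup.coe_inv, hz, inv_mul_cancel_left]
    rw [e2]
    exact ha
  have htrans : MulAction.IsPretransitive C' (Z ⧸ A') := ⟨fun x y => by
    obtain ⟨c1, h1⟩ := hbase x
    obtain ⟨c2, h2⟩ := hbase y
    refine ⟨c2 * c1⁻¹, ?_⟩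
    rw [← h1, smul_smul, inv_mul_cancel_right, h2]⟩
  have h1 := MulAction.index_stabilizer_of_transitive C' ((1 : Z) : Z ⧸ A')
  have h2 : Nat.card (Z ⧸ A') ∣ Nat.card C' := by
    rw [← h1]
    exact Subgroup.index_dvd_card _
  have hA'p : IsPGroup p A' := hA.comap_subtype
  have hC'p : IsPGroup p C' := hC.comap_subtype
  obtain ⟨n, hn⟩ := IsPGroup.iff_card.mp hA'p
  obtain ⟨m, hm⟩ := IsPGroup.iff_card.mp hC'p
  rw [hm] at h2
  obtain ⟨k, -, hk⟩ := (Nat.dvd_prime_pow hp).mp h2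
  have h3 : Nat.card Z = p ^ (n + k) := by
    rw [← A'.card_mul_index, hn, pow_add]
    congr 1
  exact IsPGroup.of_card h3

/-- `C A ⊆ A C` -/
def Pm (A C : Subgroup G) : Prop := ∀ c ∈ C, ∀ a ∈ A, ∃ a' ∈ A, ∃ c' ∈ C, c * a = a' * c'

lemma Pm.sup {A B C : Subgroup G} (hA : Pm A C) (hB : Pm B C) : Pm (A ⊔ B) C := by
  have key : ∀ x ∈ A ⊔ B, (∀ c ∈ C, ∃ a' ∈ A ⊔ B, ∃ c' ∈ C, c * x = a' * c') ∧
      ∀ c ∈ C, ∃ a' ∈ A ⊔ B, ∃ c' ∈ C, c * x⁻¹ = a' * c' := by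
    intro x hx
    rw [← Subgroup.closure_eq A, ← Subgroup.closure_eq B, ← Subgroup.closure_union] at hx
    induction hx using Subgroup.closure_induction with
    | mem x hx =>
      rcases hx with hx | hx
      · constructor
        · intro c hc
          obtain ⟨a', ha', c', hc', h⟩ := hA c hc x hx
          exact ⟨a', Subgroup.mem_sup_left ha', c', hc', h⟩
        · intro c hc
          obtain ⟨a', ha', c', hc', h⟩ := hA c hc x⁻¹ (A.inv_mem hx)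
          exact ⟨a', Subgroup.mem_sup_left ha', c', hc', h⟩
      · constructor
        · intro c hc
          obtain ⟨a', ha', c', hc', h⟩ := hB c hc x hx
          exact ⟨a', Subgroup.mem_sup_right ha', c', hc', h⟩
        · intro c hc
          obtain ⟨a', ha', c', hc', h⟩ := hB c hc x⁻¹ (B.inv_mem hx)
          exact ⟨a', Subgroup.mem_sup_right ha', c', hc', h⟩
    | one =>
      constructor
      · intro c hc
        exact ⟨1, (A ⊔ B).one_mem, c, hc, by simp⟩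
      · intro c hc
        exact ⟨1, (A ⊔ B).one_mem, c, hc, by simp⟩
    | mul x y _ _ hx hy =>
      constructor
      · intro c hc
        obtain ⟨a1, ha1, c1, hc1, h1⟩ := hx.1 c hc
        obtain ⟨a2, ha2, c2, hc2, h2⟩ := hy.1 c1 hc1
        refine ⟨a1 * a2, (A ⊔ B).mul_mem ha1 ha2, c2, hc2, ?_⟩
        rw [← mul_assoc, h1, mul_assoc, h2, mul_assoc]
      · intro c hc
        obtain ⟨a1, ha1, c1, hc1, h1⟩ := hy.2 c hc
        obtain ⟨a2, ha2, c2, hc2, h2⟩ := hx.2 c1 hc1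
        refine ⟨a1 * a2, (A ⊔ B).mul_mem ha1 ha2, c2, hc2, ?_⟩
        rw [mul_inv_rev, ← mul_assoc, h1, mul_assoc, h2, mul_assoc]
    | inv x _ hx =>
      exact ⟨hx.2, by rw [inv_inv]; exact hx.1⟩
  intro c hc a ha
  exact (key a ha).1 c hc

/-- the subgroup `A C` -/
def PS (A C : Subgroup G) (h : Pm A C) : Subgroup G where
  carrier := {z | ∃ a ∈ A, ∃ c ∈ C, z = a * c}
  one_mem' := ⟨1, A.one_mem, 1, C.one_mem, by simp⟩
  mul_mem' := by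
    rintro x y ⟨a, ha, c, hc, rfl⟩ ⟨a', ha', c', hc', rfl⟩
    obtain ⟨b, hb, d, hd, hbd⟩ := h c hc a' ha'
    refine ⟨a * b, A.mul_mem ha hb, d * c', C.mul_mem hd hc', ?_⟩
    calc a * c * (a' * c') = a * (c * a') * c' := by group
      _ = a * b * (d * c') := by rw [hbd]; group
  inv_mem' := by
    rintro x ⟨a, ha, c, hc, rfl⟩
    obtain ⟨b, hb, d, hd, hbd⟩ := h c⁻¹ (C.inv_mem hc) a⁻¹ (A.inv_mem ha)
    exact ⟨b, hb, d, hd, by rw [mul_inv_rev, hbd]⟩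

/-- the hypothesis on `X` and `Y` -/
def Gd (p : ℕ) (X Y : Subgroup G) : Prop := ∀ g : G, ∃ Z : Subgroup G, IsPGroup p Z ∧
  ∀ z : G, z ∈ Z ↔ ∃ x ∈ X, ∃ y ∈ Y, z = x * (g * y * g⁻¹)

/-- the conjugate subgroup -/
def cj (g : G) (Y : Subgroup G) : Subgroup G := Y.map (MulAut.conj g).toMonoidHom

lemma mem_cj {g : G} {Y : Subgroup G} {z : G} : z ∈ cj g Y ↔ ∃ y ∈ Y, z = g * y * g⁻¹ := by
  unfold cj
  rw [Subgroup.mem_map]
  constructor
  · rintro ⟨y, hy, rfl⟩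
    exact ⟨y, hy, rfl⟩
  · rintro ⟨y, hy, rfl⟩
    exact ⟨y, hy, rfl⟩

lemma Gd.pm {p : ℕ} {X Y : Subgroup G} (h : Gd p X Y) (g : G) : Pm X (cj g Y) := by
  intro c hc a ha
  obtain ⟨Z, -, hZ⟩ := h g
  obtain ⟨y, hy, rfl⟩ := mem_cj.mp hc
  have h1 : g * y * g⁻¹ ∈ Z := (hZ _).mpr ⟨1, X.one_mem, y, hy, by simp⟩
  have h2 : a ∈ Z := (hZ _).mpr ⟨a, ha, 1, Y.one_mem, by simp⟩
  obtain ⟨x, hx, y', hy', hxy⟩ := (hZ _).mp (Z.mul_mem h1 h2)
  exact ⟨x, hx, g * y' * g⁻¹, mem_cj.mpr ⟨y', hy', rfl⟩, hxy⟩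

lemma Gd.left {p : ℕ} {X Y : Subgroup G} (h : Gd p X Y) : IsPGroup p X := by
  obtain ⟨Z, hZp, hZ⟩ := h 1
  exact hZp.to_le (fun x hx => (hZ x).mpr ⟨x, hx, 1, Y.one_mem, by simp⟩)

lemma Gd.right {p : ℕ} {X Y : Subgroup G} (h : Gd p X Y) (g : G) : IsPGroup p (cj g Y) := by
  obtain ⟨Z, hZp, hZ⟩ := h g
  refine hZp.to_le (fun x hx => ?_)
  obtain ⟨y, hy, rfl⟩ := mem_cj.mp hx
  exact (hZ _).mpr ⟨1, X.one_mem, y, hy, by simp⟩

/-- the enlarged subgroup -/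
lemma Gd.enlarge [Finite G] {p : ℕ} (hp : p.Prime) {X Y : Subgroup G} (h : Gd p X Y) (g y : G)
    (hy : y ∈ Y) : Gd p (X ⊔ cj (g * y * g⁻¹) X) Y := by
  intro k
  set w : G := g * y * g⁻¹ with hw
  have h1 : Pm X (cj k Y) := h.pm k
  have h2 : Pm (cj w X) (cj k Y) := by
    intro c hc a ha
    obtain ⟨x, hx, rfl⟩ := mem_cj.mp ha
    obtain ⟨y', hy', rfl⟩ := mem_cj.mp hc
    obtain ⟨x1, hx1, c1, hc1, h3⟩ := h.pm (w⁻¹ * k) (w⁻¹ * k * y' * (w⁻¹ * k)⁻¹)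
      (mem_cj.mpr ⟨y', hy', rfl⟩) x hx
    obtain ⟨y1, hy1, rfl⟩ := mem_cj.mp hc1
    refine ⟨w * x1 * w⁻¹, mem_cj.mpr ⟨x1, hx1, rfl⟩, k * y1 * k⁻¹, mem_cj.mpr ⟨y1, hy1, rfl⟩, ?_⟩
    calc k * y' * k⁻¹ * (w * x * w⁻¹) = w * (w⁻¹ * k * y' * (w⁻¹ * k)⁻¹ * x) * w⁻¹ := by group
      _ = w * x1 * w⁻¹ * (k * y1 * k⁻¹) := by rw [h3]; group
  have h3 : Pm (X ⊔ cj w X) (cj k Y) := h1.sup h2
  have hX2 : IsPGroup p ↥(X ⊔ cj w X) := by
    obtain ⟨Z, hZp, hZ⟩ := h g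
    have hXZ : X ≤ Z := fun x hx => (hZ x).mpr ⟨x, hx, 1, Y.one_mem, by simp⟩
    have hwZ : w ∈ Z := (hZ w).mpr ⟨1, X.one_mem, y, hy, by simp [hw]⟩
    refine hZp.to_le (sup_le hXZ ?_)
    intro z hz
    obtain ⟨x, hx, rfl⟩ := mem_cj.mp hz
    exact Z.mul_mem (Z.mul_mem hwZ (hXZ hx)) (Z.inv_mem hwZ)
  refine ⟨PS _ _ h3, ?_, ?_⟩
  · refine prod_pgroup hp hX2 (h.right k) ?_ ?_ ?_
    · intro x hx
      exact ⟨x, hx, 1, (cj k Y).one_mem, by simp⟩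
    · intro x hx
      exact ⟨1, (X ⊔ cj w X).one_mem, x, hx, by simp⟩
    · intro z hz
      obtain ⟨a, ha, c, hc, hac⟩ := (PS _ _ h3).inv_mem hz
      refine ⟨c⁻¹, (cj k Y).inv_mem hc, a⁻¹, (X ⊔ cj w X).inv_mem ha, ?_⟩
      rw [← mul_inv_rev, ← hac, inv_inv]
  · intro z
    constructor
    · rintro ⟨a, ha, c, hc, rfl⟩
      obtain ⟨y', hy', rfl⟩ := mem_cj.mp hc
      exact ⟨a, ha, y', hy', rfl⟩
    · rintro ⟨a, ha, y', hy', rfl⟩
      exact ⟨a, ha, k * y' * k⁻¹, mem_cj.mpr ⟨y', hy', rfl⟩, rfl⟩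

lemma normal_le_sylow [Finite G] {p : ℕ} {B : Subgroup G} (hBn : B.Normal) (hB : IsPGroup p B)
    (P : Sylow p G) : B ≤ P := by
  have h1 : IsPGroup p ↥(B ⊔ (P : Subgroup G)) := IsPGroup.to_sup_of_normal_left hB P.isPGroup'
  have h2 := P.is_maximal' h1 le_sup_right
  exact le_sup_left.trans h2.le

theorem pf_keg : T_KEG := by
  intro G _ _ p hp X Y hXY hcore x hx y hy
  have := Fact.mk hp
  have hfin : (Set.univ : Set (Subgroup G)).Finite := Set.toFinite _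
  obtain ⟨X1, hX1, hmax⟩ := (hfin.subset (Set.subset_univ {X1 : Subgroup G | X ≤ X1 ∧
    Gd p X1 Y})).exists_maximal ⟨X, le_rfl, hXY⟩
  obtain ⟨hXX1, hG1⟩ := hX1
  -- every conjugate of `Y` normalises `X1`
  have hnorm : ∀ g : G, ∀ y ∈ Y, cj (g * y * g⁻¹) X1 ≤ X1 := by
    intro g y hy
    have h1 := hmax ⟨hXX1.trans le_sup_left, hG1.enlarge hp g y hy⟩ le_sup_left
    exact le_sup_right.trans h1
  have hnorm2 : ∀ g : G, ∀ y ∈ Y, g * y * g⁻¹ ∈ Subgroup.normalizer (X1 : Set G) := by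
    intro g y hy
    rw [Subgroup.mem_normalizer_iff]
    intro z
    constructor
    · intro hz
      exact hnorm g y hy (mem_cj.mpr ⟨z, hz, rfl⟩)
    · intro hz
      have h1 := hnorm g y⁻¹ (Y.inv_mem hy) (mem_cj.mpr ⟨_, hz, rfl⟩)
      have e1 : g * y⁻¹ * g⁻¹ * (g * y * g⁻¹ * z * (g * y * g⁻¹)⁻¹) * (g * y⁻¹ * g⁻¹)⁻¹ = z := by
        group
      rwa [e1] at h1
  set R : Subgroup G := Subgroup.normalClosure (Y : Set G) with hR
  have hRn : R.Normal := Subgroup.normalClosure_normal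
  have hRnorm : R ≤ Subgroup.normalizer (X1 : Set G) := by
    rw [hR]
    unfold Subgroup.normalClosure
    rw [Subgroup.closure_le]
    intro z hz
    obtain ⟨a, ha, hc⟩ := Group.mem_conjugatesOfSet_iff.mp hz
    obtain ⟨c, rfl⟩ := isConj_iff.mp hc
    exact hnorm2 c a ha
  have hYR : Y ≤ R := Subgroup.subset_normalClosure
  -- `X1 ⊓ R` is trivial
  have hX1p : IsPGroup p X1 := hG1.left
  obtain ⟨P⟩ : Nonempty (Sylow p R) := inferInstance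
  have hle : Subgroup.normalClosure ((X1 ⊓ R : Subgroup G) : Set G)
      ≤ (P : Subgroup R).map R.subtype := by
    unfold Subgroup.normalClosure
    rw [Subgroup.closure_le]
    intro z hz
    obtain ⟨a, ha, hc⟩ := Group.mem_conjugatesOfSet_iff.mp hz
    obtain ⟨g, rfl⟩ := isConj_iff.mp hc
    have haR : a ∈ R := (Subgroup.mem_inf.mp ha).2
    set B : Subgroup R := (cj g (X1 ⊓ R)).subgroupOf R with hB
    have hBn : B.Normal := by
      constructor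
      rintro ⟨b, hb⟩ hbB ⟨r, hr⟩
      rw [hB, Subgroup.mem_subgroupOf] at hbB ⊢
      obtain ⟨s, hs, hbs⟩ := mem_cj.mp hbB
      have hbs' : b = g * s * g⁻¹ := hbs
      obtain ⟨hs1, hs2⟩ := Subgroup.mem_inf.mp hs
      have hr' : g⁻¹ * r * g ∈ R := by
        have := hRn.conj_mem r hr g⁻¹
        rwa [inv_inv] at this
      refine mem_cj.mpr ⟨g⁻¹ * r * g * s * (g⁻¹ * r * g)⁻¹, Subgroup.mem_inf.mpr ⟨?_, ?_⟩, ?_⟩
      · exact (Subgroup.mem_normalizer_iff.mp (hRnorm hr') s).mp hs1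
      · exact R.mul_mem (R.mul_mem hr' hs2) (R.inv_mem hr')
      · change r * b * r⁻¹ = _
        rw [hbs']
        group
    have hBp : IsPGroup p B := by
      have h1 : IsPGroup p (cj g (X1 ⊓ R)) := (hX1p.to_le inf_le_left).map _
      exact h1.comap_subtype
    have hz' : g * a * g⁻¹ ∈ R := hRn.conj_mem a haR g
    have hmem : (⟨g * a * g⁻¹, hz'⟩ : R) ∈ B := by
      rw [hB, Subgroup.mem_subgroupOf]
      exact mem_cj.mpr ⟨a, ha, rfl⟩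
    exact ⟨⟨g * a * g⁻¹, hz'⟩, normal_le_sylow hBn hBp P hmem, rfl⟩
  have hbot : Subgroup.normalClosure ((X1 ⊓ R : Subgroup G) : Set G) = ⊥ :=
    hcore _ Subgroup.normalClosure_normal ((P.isPGroup'.map R.subtype).to_le hle)
  have htriv : ∀ z, z ∈ X1 → z ∈ R → z = 1 := by
    intro z hz1 hz2
    have h1 : z ∈ Subgroup.normalClosure ((X1 ⊓ R : Subgroup G) : Set G) :=
      Subgroup.subset_normalClosure (Subgroup.mem_inf.mpr ⟨hz1, hz2⟩)
    rw [hbot] at h1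
    exact Subgroup.mem_bot.mp h1
  have hc1 : x * y * x⁻¹ * y⁻¹ ∈ R :=
    R.mul_mem (hRn.conj_mem y (hYR hy) x) (R.inv_mem (hYR hy))
  have hc2 : x * y * x⁻¹ * y⁻¹ ∈ X1 := by
    have h1 := (Subgroup.mem_normalizer_iff.mp (hRnorm (hYR hy)) x⁻¹).mp (X1.inv_mem (hXX1 hx))
    have h2 := X1.mul_mem (hXX1 hx) h1
    have e1 : x * (y * x⁻¹ * y⁻¹) = x * y * x⁻¹ * y⁻¹ := by group
    rwa [e1] at h2
  have h3 := htriv _ hc2 hc1
  have e2 : x * y = (x * y * x⁻¹ * y⁻¹) * (y * x) := by group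
  rw [e2, h3, one_mul]

end Pool.Agent.H85.FK
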