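import Pool.Agent.H85.FK.SFA

/-!
# S2A: one hub cell
-/

set_option autoImplicit false

namespace Pool.Agent.H85.FK

open Set Pool.Agent.H75.HCI Pool.Agent.H16.FK

section

variable {kx k : ℕ} {L : Type} {T : List (Idx kx k) → L}

/-- Moving a list in one chunk to another chunk. -/
lemma mv_chunk (hP : PatInv T) (i j : ℕ) (l : List (Idx kx k)) (hl : ∀ p ∈ l, p.1 = i) :
    T (l.map fun p => ((j, p.2) : Idx kx k)) = T l := by
  refine hP (fun p => ((j, p.2) : Idx kx k)) {p | p.1 = i} ⟨fun p _ => rfl, ?_, ?_⟩ l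
    fun x hx => hl x hx
  · intro p hp q hq
    have hp' : p.1 = i := hp
    have hq' : q.1 = i := hq
    simp [hp', hq']
  · intro p _ q _ _ u u' v v' h1 h2 h3 h4
    have h5 : u' = u := Sum.inr.inj (h3.symm.trans h1)
    have h6 : v' = v := Sum.inr.inj (h4.symm.trans h2)
    rw [h5, h6]

lemma ec_row {cl : Fin kx → Fin kx} {p : Idx kx k} {i m : ℕ} (h : ec cl p = (i, .inr m)) :
    ∃ y, p = (i, .inr (m, y)) := by
  obtain ⟨j, z⟩ := p
  unfold ec at h
  obtain ⟨h1, h2⟩ := Prod.ext_iff.1 h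
  simp only at h1 h2
  subst h1
  rcases z with b | ⟨m', y⟩
  · simp at h2
  · simp only [Sum.elim_inr, Sum.inr.injEq] at h2
    exact ⟨y, by rw [h2]⟩

lemma ec_hub {cl : Fin kx → Fin kx} {p : Idx kx k} {i : ℕ} {b : Fin kx}
    (h : ec cl p = (i, .inl b)) : ∃ y, p = (i, .inl y) := by
  obtain ⟨j, z⟩ := p
  unfold ec at h
  obtain ⟨h1, h2⟩ := Prod.ext_iff.1 h
  simp only at h1 h2
  subst h1
  rcases z with b' | ⟨m', y⟩
  · exact ⟨b', rfl⟩
  · simp at h2

lemma ex_prt {cl : Fin kx → Fin kx} {i m : ℕ} (l : List (Idx kx k))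
    (hl : ∀ p ∈ l, ec cl p = (i, .inr m)) (hn : l.Nodup) :
    ∃ a : List (Fin k), a.Nodup ∧ a.length = l.length ∧ l = prt i m a := by
  have h : ∃ a : List (Fin k), l = prt i m a := by
    clear hn
    induction l with
    | nil => exact ⟨[], rfl⟩
    | cons p l ih =>
      obtain ⟨a, ha⟩ := ih fun q hq => hl q (List.mem_cons_of_mem _ hq)
      obtain ⟨y, hy⟩ := ec_row (hl p (List.mem_cons_self ..))
      refine ⟨y :: a, ?_⟩
      rw [ha, hy]
      rfl
  obtain ⟨a, ha⟩ := h
  subst ha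
  refine ⟨a, ?_, by simp [prt], rfl⟩
  exact List.Nodup.of_map _ hn

lemma prt_nodup (i m : ℕ) (a : List (Fin k)) (h : a.Nodup) :
    (prt i m a : List (Idx kx k)).Nodup := by
  unfold prt
  refine h.map ?_
  intro y y' hy
  simpa using hy

lemma hub_nodup (i : ℕ) (a : List (Fin kx)) (h : a.Nodup) :
    (hub i a : List (Idx kx k)).Nodup := by
  unfold hub
  refine h.map ?_
  intro y y' hy
  simpa using hy

lemma prt_fst {i m : ℕ} {a : List (Fin k)} {p : Idx kx k} (h : p ∈ prt i m a) : p.1 = i := by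
  unfold prt at h
  obtain ⟨z, -, hz⟩ := List.mem_map.1 h
  rw [← hz]

lemma hub_fst {i : ℕ} {a : List (Fin kx)} {p : Idx kx k} (h : p ∈ hub i a) : p.1 = i := by
  unfold hub at h
  obtain ⟨z, -, hz⟩ := List.mem_map.1 h
  rw [← hz]

lemma prt_mv (hP : PatInv T) (i j m : ℕ) (a : List (Fin k)) :
    T (prt i m a) = T (prt j m a) := by
  have h := mv_chunk hP i j (prt i m a) fun p hp => prt_fst hp
  rw [← h]
  simp [prt, Function.comp_def]

lemma hub_mv (hP : PatInv T) (i j : ℕ) (a : List (Fin kx)) :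
    T (hub i a) = T (hub j a) := by
  have h := mv_chunk hP i j (hub i a) fun p hp => hub_fst hp
  rw [← h]
  simp [hub, Function.comp_def]

lemma prt_sel (i m : ℕ) (a : List (Fin k)) :
    sel (row i m : List (Idx kx k)) (a.map Fin.val) = prt i m a := by
  unfold row prt
  rw [sel_map]
  congr 1
  unfold sel
  rw [List.filterMap_map]
  have h : ((fun i : ℕ => (List.finRange k)[i]?) ∘ Fin.val) = some := by
    funext y
    simp
  rw [h, List.filterMap_some]

lemma row_mem_ec (cl : Fin kx → Fin kx) {i m : ℕ} {a : List (Fin k)} {p : Idx kx k}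
    (h : p ∈ prt i m a) : ec cl p = (i, .inr m) := by
  unfold prt at h
  obtain ⟨z, -, hz⟩ := List.mem_map.1 h
  rw [← hz]
  rfl

lemma mem_hubA (i : ℕ) (b : Fin kx) : ((i, .inl b) : Idx kx k) ∈ hubA i := by
  unfold hubA hub
  exact List.mem_map.2 ⟨b, List.mem_finRange b, rfl⟩

end

theorem pf_S2A : T_S2A := by
  intro k L T cl In hk hP hF hL hIn hS hcl hT0
  set b0 : Fin k := ⟨0, hk⟩ with hb0
  have hecl : ∀ (i : ℕ) (b : Fin k), ec (κ := k) cl (i, .inl b) = (i, .inl (cl b0)) := by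
    intro i b
    unfold ec
    simp only [Sum.elim_inl]
    rw [hcl b b0]
  have hTwr : Tw T (List.finRange k) := ⟨List.nodup_finRange k, List.length_finRange, rfl⟩
  have hhl : ∀ i : ℕ, ∀ p ∈ (hubA i : List (Idx k k)), ec cl p = (i, .inl (cl b0)) := by
    intro i p hp
    unfold hubA hub at hp
    obtain ⟨z, -, hz⟩ := List.mem_map.1 hp
    rw [← hz]
    exact hecl i z
  have hrl : ∀ i m : ℕ, ∀ p ∈ (row i m : List (Idx k k)), ec cl p = (i, .inr m) :=
    fun i m p hp => row_mem_ec cl hp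
  by_cases hc : cl b0 ∈ In
  · -- the hub class is in the s-part
    classical
    obtain ⟨f, hf1, hf2, -⟩ := hS.hom ∅ {(0, .inl (cl b0)), (0, .inr 0)}
      {(0, .inr 0), (1, .inr 0)} (by simp) (by
        intro d hd β hβ
        simp only [Finset.mem_insert, Finset.mem_singleton] at hd
        rcases hd with rfl | rfl
        · have : cl b0 = β := Sum.inl.inj hβ
          rw [← this]
          exact hc
        · simp at hβ) (by
        intro d hd β hβ
        simp only [Finset.mem_insert, Finset.mem_singleton] at hd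
        rcases hd with rfl | rfl <;> simp at hβ) (by
        rw [Finset.card_pair (by simp), Finset.card_pair (by simp)])
    have hA1 : ∀ p ∈ (hubA 0 : List (Idx k k)), p ∈ Pt (ec cl) univ
        ((∅ : Finset (ℕ × (Fin k ⊕ ℕ))) ∪ ({(0, .inl (cl b0)), (0, .inr 0)} :
          Finset (ℕ × (Fin k ⊕ ℕ))) : Set (ℕ × (Fin k ⊕ ℕ))) := by
      intro p hp
      refine ⟨mem_univ _, ?_⟩
      rw [hhl 0 p hp]
      simp
    have hA2 : ∀ p ∈ (row 0 0 : List (Idx k k)), p ∈ Pt (ec cl) univ
        ((∅ : Finset (ℕ × (Fin k ⊕ ℕ))) ∪ ({(0, .inl (cl b0)), (0, .inr 0)} :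
          Finset (ℕ × (Fin k ⊕ ℕ))) : Set (ℕ × (Fin k ⊕ ℕ))) := by
      intro p hp
      refine ⟨mem_univ _, ?_⟩
      rw [hrl 0 0 p hp]
      simp
    have himg : ∀ p, p ∈ (hubA 0 : List (Idx k k)) ∨ p ∈ (row 0 0 : List (Idx k k)) →
        ec cl (f p) = (0, .inr 0) ∨ ec cl (f p) = (1, .inr 0) := by
      intro p hp
      have h1 : f p ∈ f '' Pt (ec cl) univ (({(0, .inl (cl b0)), (0, .inr 0)} :
          Finset (ℕ × (Fin k ⊕ ℕ))) : Set (ℕ × (Fin k ⊕ ℕ))) := by
        refine mem_image_of_mem f ⟨mem_univ _, ?_⟩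
        rcases hp with hp | hp
        · rw [hhl 0 p hp]
          simp
        · rw [hrl 0 0 p hp]
          simp
      rw [hf2] at h1
      have h2 := h1.2
      simpa using h2
    -- the base points
    have hpb : ((0, .inl b0) : Idx k k) ∈ (hubA 0 : List (Idx k k)) := mem_hubA 0 b0
    have hpr : ((0, .inr (0, b0)) : Idx k k) ∈ (row 0 0 : List (Idx k k)) := by
      unfold row prt
      exact List.mem_map.2 ⟨b0, List.mem_finRange b0, rfl⟩
    have hne : ec cl (f (0, .inl b0)) ≠ ec cl (f (0, .inr (0, b0))) := by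
      intro h
      have h1 := (hf1.cls _ (hA1 _ hpb) _ (hA2 _ hpr)).1 h
      rw [hhl 0 _ hpb, hrl 0 0 _ hpr] at h1
      simp at h1
    have hh : ∀ p ∈ (hubA 0 : List (Idx k k)), ec cl (f p) = ec cl (f (0, .inl b0)) := by
      intro p hp
      refine (hf1.cls _ (hA1 _ hp) _ (hA1 _ hpb)).2 ?_
      rw [hhl 0 p hp, hhl 0 _ hpb]
    have hr : ∀ p ∈ (row 0 0 : List (Idx k k)), ec cl (f p) = ec cl (f (0, .inr (0, b0))) := by
      intro p hp
      refine (hf1.cls _ (hA2 _ hp) _ (hA2 _ hpr)).2 ?_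
      rw [hrl 0 0 p hp, hrl 0 0 _ hpr]
    have hn1 : ((hubA 0 : List (Idx k k)).map f).Nodup := by
      refine (List.Nodup.map_on ?_ (hub_nodup 0 _ (List.nodup_finRange k)))
      intro x hx y hy hxy
      exact hf1.inj (hA1 x hx) (hA1 y hy) hxy
    have hn2 : ((row 0 0 : List (Idx k k)).map f).Nodup := by
      refine (List.Nodup.map_on ?_ (prt_nodup 0 0 _ (List.nodup_finRange k)))
      intro x hx y hy hxy
      exact hf1.inj (hA2 x hx) (hA2 y hy) hxy
    have key : ∀ i j : ℕ, ec cl (f (0, .inl b0)) = (i, .inr 0) →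
        ec cl (f (0, .inr (0, b0))) = (j, .inr 0) → ∃ a b : List (Fin k), Tw T a ∧ Tw T b ∧
          T (hubA 0 ++ row 0 0) = T (prt i 0 a ++ prt j 0 b) := by
      intro i j hi hj
      obtain ⟨a, ha1, ha2, ha3⟩ := ex_prt (cl := cl) (i := i) (m := 0)
        ((hubA 0 : List (Idx k k)).map f) (by
          intro p hp
          obtain ⟨q, hq, rfl⟩ := List.mem_map.1 hp
          rw [hh q hq, hi]) hn1
      obtain ⟨b, hb1, hb2, hb3⟩ := ex_prt (cl := cl) (i := j) (m := 0)
        ((row 0 0 : List (Idx k k)).map f) (by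
          intro p hp
          obtain ⟨q, hq, rfl⟩ := List.mem_map.1 hp
          rw [hr q hq, hj]) hn2
      refine ⟨a, b, ⟨ha1, ?_, ?_⟩, ⟨hb1, ?_, ?_⟩, ?_⟩
      · rw [ha2]
        simp [hubA, hub]
      · rw [prt_mv hP 0 i, ← ha3, hf1.lab _ hA1, hT0]
      · rw [hb2]
        simp [row, prt]
      · rw [prt_mv hP 0 j, ← hb3, hf1.lab _ hA2]
      · rw [← ha3, ← hb3, ← List.map_append]
        refine (hf1.lab _ ?_).symm
        intro p hp
        rcases List.mem_append.1 hp with h | h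
        · exact hA1 p h
        · exact hA2 p h
    rcases himg _ (Or.inl hpb) with h1 | h1 <;> rcases himg _ (Or.inr hpr) with h2 | h2
    · exact absurd (h1.trans h2.symm) hne
    · obtain ⟨a, b, h3, h4, h5⟩ := key 0 1 h1 h2
      exact Or.inl ⟨a, b, h3, h4, h5⟩
    · obtain ⟨a, b, h3, h4, h5⟩ := key 1 0 h1 h2
      refine Or.inr ⟨b, a, h4, h3, ?_⟩
      have h6 := ft_swap hF (l := []) (l' := []) (b := hubA 0) (b' := prt 1 0 a) (c := row 0 0)
        (c' := prt 0 0 b) rfl (by rw [prt, List.length_map, h3.2.1]; simp [hubA, hub])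
        (by rw [prt, List.length_map, h4.2.1]; simp [row, prt]) h5
      exact h6
    · exact absurd (h1.trans h2.symm) hne
  · -- the hub class is not in the s-part
    right
    obtain ⟨f, hf1, hf2, hf3⟩ := hS.hom {(1, .inl (cl b0))} {(1, .inr 0)} {(0, .inr 0)} (by
        intro c hc' h
        rw [Finset.mem_singleton] at hc'
        subst hc'
        exact hc (h _ rfl)) (by
        intro d hd β hβ
        rw [Finset.mem_singleton] at hd
        subst hd
        simp at hβ) (by
        intro d hd β hβ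
        rw [Finset.mem_singleton] at hd
        subst hd
        simp at hβ) (by simp)
    have hfix : (hubA 1 : List (Idx k k)).map f = hubA 1 := by
      have h1 : ∀ p ∈ (hubA 1 : List (Idx k k)), f p = p := by
        intro p hp
        refine hf3 p ⟨mem_univ _, ?_⟩
        rw [hhl 1 p hp]
        simp
      calc (hubA 1 : List (Idx k k)).map f = (hubA 1 : List (Idx k k)).map id :=
            List.map_congr_left h1
        _ = hubA 1 := List.map_id _
    have hA2 : ∀ p ∈ (row 1 0 : List (Idx k k)), p ∈ Pt (ec cl) univ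
        (((({(1, .inl (cl b0))} : Finset (ℕ × (Fin k ⊕ ℕ))) : Set (ℕ × (Fin k ⊕ ℕ)))) ∪
          (({(1, .inr 0)} : Finset (ℕ × (Fin k ⊕ ℕ))) : Set (ℕ × (Fin k ⊕ ℕ)))) := by
      intro p hp
      refine ⟨mem_univ _, ?_⟩
      rw [hrl 1 0 p hp]
      simp
    have hA1 : ∀ p ∈ (hubA 1 : List (Idx k k)), p ∈ Pt (ec cl) univ
        (((({(1, .inl (cl b0))} : Finset (ℕ × (Fin k ⊕ ℕ))) : Set (ℕ × (Fin k ⊕ ℕ)))) ∪
          (({(1, .inr 0)} : Finset (ℕ × (Fin k ⊕ ℕ))) : Set (ℕ × (Fin k ⊕ ℕ)))) := by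
      intro p hp
      refine ⟨mem_univ _, ?_⟩
      rw [hhl 1 p hp]
      simp
    have hn2 : ((row 1 0 : List (Idx k k)).map f).Nodup := by
      refine (List.Nodup.map_on ?_ (prt_nodup 1 0 _ (List.nodup_finRange k)))
      intro x hx y hy hxy
      exact hf1.inj (hA2 x hx) (hA2 y hy) hxy
    obtain ⟨a, ha1, ha2, ha3⟩ := ex_prt (cl := cl) (i := 0) (m := 0)
      ((row 1 0 : List (Idx k k)).map f) (by
        intro p hp
        obtain ⟨q, hq, rfl⟩ := List.mem_map.1 hp
        have h1 : f q ∈ f '' Pt (ec cl) univ (({(1, .inr 0)} :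
          Finset (ℕ × (Fin k ⊕ ℕ))) : Set (ℕ × (Fin k ⊕ ℕ))) := by
          refine mem_image_of_mem f ⟨mem_univ _, ?_⟩
          rw [hrl 1 0 q hq]
          simp
        rw [hf2] at h1
        simpa using h1.2) hn2
    have hak : a.length = k := by
      rw [ha2]
      simp [row, prt]
    have hTwa : Tw T a := by
      refine ⟨ha1, hak, ?_⟩
      rw [← ha3, hf1.lab _ hA2]
      exact prt_mv hP 1 0 0 _
    have h1 : T (hubA 1 ++ prt 0 0 a) = T (hubA 1 ++ row 1 0) := by
      rw [← ha3]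
      nth_rw 1 [← hfix]
      rw [← List.map_append]
      refine hf1.lab _ ?_
      intro p hp
      rcases List.mem_append.1 hp with h | h
      · exact hA1 p h
      · exact hA2 p h
    have h2 : T (row 0 0 ++ hubA 1) = T (row 0 0 ++ row 1 0) := by
      refine hL 1 (row 0 0) (hubA 1) ?_ ?_ (hub_nodup 1 _ (List.nodup_finRange k))
        (by simp [hubA, hub]) ?_
      · intro p hp
        rw [prt_fst hp]
        exact one_pos
      · intro p hp
        rw [hub_fst hp]
      · rw [← hT0]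
        exact hub_mv hP 1 0 _
    have h3 : T (prt 0 0 a ++ hubA 1) = T (prt 0 0 a ++ row 1 0) := by
      have e1 : T (hubA 1 ++ row 0 0) = T (row 1 0 ++ row 0 0) :=
        ft_swap hF (l := []) (l' := []) (b := row 0 0) (b' := row 0 0) (c := hubA 1)
          (c' := row 1 0) rfl rfl (by simp [hubA, hub, row, prt]) h2
      have e2 := ft_tail hF (a.map Fin.val) (by simp [hubA, hub, row, prt]) rfl e1
      rw [prt_sel] at e2
      exact ft_swap hF (l := []) (l' := []) (b := hubA 1) (b' := row 1 0) (c := prt 0 0 a)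
          (c' := prt 0 0 a) rfl (by simp [hubA, hub, row, prt]) rfl e2
    have h4 : T (prt 0 0 a ++ hubA 1) = T (row 1 0 ++ hubA 1) :=
      ft_swap hF (l := []) (l' := []) (b := hubA 1) (b' := hubA 1) (c := prt 0 0 a)
          (c' := row 1 0) rfl rfl (by simp [row, prt, hak]) h1
    refine ⟨a, List.finRange k, hTwa, hTwr, ?_⟩
    have h5 : T (row 0 0 ++ hubA 0) = T (row 1 0 ++ hubA 1) := by
      have h6 := mv_chunk hP 1 0 (row 1 0 ++ hubA 1) (by
        intro p hp
        rcases List.mem_append.1 hp with h | h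
        · exact prt_fst h
        · exact hub_fst h)
      rw [← h6]
      simp [row, prt, hubA, hub, Function.comp_def]
    rw [h5, ← h4, h3]
    rfl

end Pool.Agent.H85.FK
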