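import Pool.Agent.H16.FK.TargetsA

/-!
# SFA: split far rows are symmetric
-/

set_option autoImplicit false

namespace Pool.Agent.H85.FK

open Set Pool.Agent.H75.HCI Pool.Agent.H16.FK

section

variable {α : Type}

lemma sel_app (l : List α) (w1 w2 : List ℕ) : sel l (w1 ++ w2) = sel l w1 ++ sel l w2 := by
  unfold sel
  rw [List.filterMap_append]

lemma sel_left (b c : List α) : sel (b ++ c) (List.range b.length) = b := by
  have h : sel (b ++ c) (List.range b.length) = sel b (List.range b.length) := by
    unfold sel
    refine List.filterMap_congr fun i hi => ?_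
    exact List.getElem?_append_left (List.mem_range.1 hi)
  rw [h, sel_range]

lemma sel_shift (b c : List α) (w : List ℕ) :
    sel (b ++ c) (w.map fun i => b.length + i) = sel c w := by
  unfold sel
  rw [List.filterMap_map]
  refine List.filterMap_congr fun i _ => ?_
  simp only [Function.comp]
  rw [List.getElem?_append_right (Nat.le_add_right _ _), Nat.add_sub_cancel_left]

lemma sel_right (b c : List α) :
    sel (b ++ c) ((List.range c.length).map fun i => b.length + i) = c := by
  rw [sel_shift, sel_range]

lemma sel_ex (a b : List α) (h : ∀ x ∈ b, x ∈ a) : ∃ w : List ℕ, sel a w = b := by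
  induction b with
  | nil => exact ⟨[], rfl⟩
  | cons x b ih =>
    obtain ⟨w, hw⟩ := ih fun y hy => h y (List.mem_cons_of_mem _ hy)
    obtain ⟨i, hi⟩ := List.mem_iff_getElem?.1 (h x (List.mem_cons_self ..))
    refine ⟨i :: w, ?_⟩
    unfold sel at hw ⊢
    rw [List.filterMap_cons, hi, hw]

end

section

variable {kx k : ℕ} {L : Type} {T : List (Idx kx k) → L}

lemma ft_tail (hF : FTx T) {l l' x x' : List (Idx kx k)} (w : List ℕ)
    (hl : l.length = l'.length) (hx : x.length = x'.length) (h : T (l ++ x) = T (l' ++ x')) :
    T (l ++ sel x w) = T (l' ++ sel x' w) := by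
  have h1 := hF (l ++ x) (l' ++ x') (List.range l.length ++ w.map fun i => l.length + i)
    (by simp [hl, hx]) h
  rw [sel_app, sel_app, sel_left, sel_shift, hl, sel_left, sel_shift] at h1
  exact h1

lemma ft_swap (hF : FTx T) {l l' b b' c c' : List (Idx kx k)}
    (hl : l.length = l'.length) (hb : b.length = b'.length) (hc : c.length = c'.length)
    (h : T (l ++ (b ++ c)) = T (l' ++ (b' ++ c'))) :
    T (l ++ (c ++ b)) = T (l' ++ (c' ++ b')) := by
  have h1 := ft_tail hF (((List.range c.length).map fun i => b.length + i) ++
    List.range b.length) hl (by simp [hb, hc]) h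
  rw [sel_app, sel_app, sel_right, sel_left, hb, hc, sel_right, sel_left] at h1
  exact h1

/-- Permuting blocks. -/
lemma ft_perm (hF : FTx T) (F G : ℕ → List (Idx kx k)) (hFG : ∀ j, (F j).length = (G j).length)
    {js js' : List ℕ} (hp : js.Perm js') : ∀ l l' r r' : List (Idx kx k),
    l.length = l'.length → r.length = r'.length →
    T (l ++ ((js.map F).flatten ++ r)) = T (l' ++ ((js.map G).flatten ++ r')) →
    T (l ++ ((js'.map F).flatten ++ r)) = T (l' ++ ((js'.map G).flatten ++ r')) := by
  have hlen : ∀ js : List ℕ, (js.map F).flatten.length = (js.map G).flatten.length := by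
    intro js
    rw [List.length_flatten, List.length_flatten, List.map_map, List.map_map]
    congr 1
    refine List.map_congr_left fun j _ => ?_
    exact hFG j
  induction hp with
  | nil => exact fun l l' r r' _ _ h => h
  | @cons x l1 l2 _ ih =>
    intro l l' r r' hl hr h
    have e1 : ∀ (H : ℕ → List (Idx kx k)) (l2 : List ℕ) (l r : List (Idx kx k)),
        l ++ (((x :: l2).map H).flatten ++ r) = (l ++ H x) ++ ((l2.map H).flatten ++ r) := by
      intro H l2 l r
      simp
    rw [e1, e1] at h ⊢
    refine ih _ _ _ _ ?_ hr h
    rw [List.length_append, List.length_append, hl, hFG]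
  | @swap x y l1 =>
    intro l l' r r' hl hr h
    have e1 : ∀ (H : ℕ → List (Idx kx k)) (a b : ℕ) (l r : List (Idx kx k)),
        l ++ (((a :: b :: l1).map H).flatten ++ r) =
          l ++ (H a ++ H b) ++ ((l1.map H).flatten ++ r) := by
      intro H a b l r
      simp
    rw [e1, e1] at h
    rw [e1, e1]
    -- move the tail to the front, swap, and back
    have h2 := hF _ _ (List.range l.length ++ ((List.range (F x).length).map fun i =>
        l.length + ((F y).length + i)) ++ ((List.range (F y).length).map fun i => l.length + i) ++
      ((List.range ((l1.map F).flatten ++ r).length).map fun i =>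
        (l ++ (F y ++ F x)).length + i)) (by simp [hl, hFG, hr, hlen, Function.comp_def]) h
    have e2 : ∀ (l a b c : List (Idx kx k)), sel (l ++ (a ++ b) ++ c)
        (List.range l.length ++ ((List.range b.length).map fun i =>
        l.length + (a.length + i)) ++ ((List.range a.length).map fun i => l.length + i) ++
      ((List.range c.length).map fun i => (l ++ (a ++ b)).length + i)) =
        l ++ (b ++ a) ++ c := by
      intro l a b c
      rw [sel_app, sel_app, sel_app, sel_right]
      congr 1
      rw [List.append_assoc l (a ++ b) c, sel_left]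
      have e3 : ((List.range b.length).map fun i => l.length + (a.length + i)) =
          (((List.range b.length).map fun i => a.length + i).map fun i => l.length + i) := by
        rw [List.map_map]
        rfl
      rw [e3, sel_shift, sel_shift, List.append_assoc, List.append_assoc a b c, sel_shift,
        sel_left, sel_left]
    have e4 : sel (l' ++ (G y ++ G x) ++ ((l1.map G).flatten ++ r'))
        (List.range l.length ++ ((List.range (F x).length).map fun i =>
        l.length + ((F y).length + i)) ++ ((List.range (F y).length).map fun i => l.length + i) ++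
      ((List.range ((l1.map F).flatten ++ r).length).map fun i =>
        (l ++ (F y ++ F x)).length + i)) = l' ++ (G x ++ G y) ++ ((l1.map G).flatten ++ r') := by
      have e5 : (l ++ (F y ++ F x)).length = (l' ++ (G y ++ G x)).length := by
        simp [hl, hFG]
      have e6 : ((l1.map F).flatten ++ r).length = ((l1.map G).flatten ++ r').length := by
        rw [List.length_append, List.length_append, hlen, hr]
      rw [e5, e6, hl, hFG x, hFG y]
      exact e2 _ _ _ _
    rw [e2, e4] at h2
    exact h2
  | trans _ _ ih1 ih2 =>
    intro l l' r r' hl hr h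
    exact ih2 _ _ _ _ hl hr (ih1 _ _ _ _ hl hr h)

/-- The parts of a split row. -/
lemma parts_ext (hT : AXP T) (c : Fin k → ℕ) (hc : ∃ y y', c y ≠ c y') (i i' : ℕ)
    (cs : List ℕ) (hcs : cs.Nodup) : ∀ l l' : List (Idx kx k), l.length = l'.length → T l = T l' →
    (∀ v ∈ cs, Miss i v l) → (∀ v ∈ cs, Miss i' v l') →
    T (l ++ (cs.map fun v => prt i v ((List.finRange k).filter fun y => decide (c y = v))).flatten)
      = T (l' ++ (cs.map fun v =>
        prt i' v ((List.finRange k).filter fun y => decide (c y = v))).flatten) := by
  induction cs with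
  | nil =>
    intro l l' _ h _ _
    simpa using h
  | cons v cs ih =>
    intro l l' hl h h1 h2
    rw [List.map_cons, List.flatten_cons, List.map_cons, List.flatten_cons, ← List.append_assoc,
      ← List.append_assoc]
    have hnd := List.nodup_cons.1 hcs
    have hlt : ((List.finRange k).filter fun y => decide (c y = v)).length < k := by
      obtain ⟨y, y', hyy⟩ := hc
      have h3 : ∃ z : Fin k, c z ≠ v := by
        by_cases hy : c y = v
        · exact ⟨y', fun h4 => hyy (hy.trans h4.symm)⟩
        · exact ⟨y, hy⟩
      obtain ⟨z, hz⟩ := h3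
      have h5 : ((List.finRange k).filter fun y => decide (c y = v)).length ≤
          ((List.finRange k).filter fun y => decide (y ≠ z)).length := by
        have h6 : (List.finRange k).filter (fun y => decide (c y = v)) =
            ((List.finRange k).filter fun y => decide (y ≠ z)).filter
              fun y => decide (c y = v) := by
          rw [List.filter_filter]
          refine List.filter_congr fun y _ => ?_
          by_cases hyv : c y = v
          · have : y ≠ z := fun h7 => hz (h7 ▸ hyv)
            simp [hyv, this]
          · simp [hyv]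
        rw [h6]
        exact List.length_filter_le _ _
      have h8 : ((List.finRange k).filter fun y => decide (y ≠ z)).length < k := by
        have h9 : ((List.finRange k).filter fun y => decide (y ≠ z)).length <
            (List.finRange k).length :=
          List.length_filter_lt_length_iff_exists.2 ⟨z, List.mem_finRange z, by simp⟩
        simpa using h9
      omega
    refine ih hnd.2 _ _ (by simp [hl, prt]) ?_ ?_ ?_
    · exact hT.ext _ _ _ _ _ _ _ hl h ((List.nodup_finRange k).filter _) hlt
        (h1 v (List.mem_cons_self ..)) (h2 v (List.mem_cons_self ..))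
    · intro v' hv' y hy
      rcases List.mem_append.1 hy with h3 | h3
      · exact h1 v' (List.mem_cons_of_mem _ hv') y h3
      · unfold prt at h3
        obtain ⟨z, -, hz⟩ := List.mem_map.1 h3
        have h4 : v = v' := by
          have := (Prod.ext_iff.1 hz).2
          simpa using (Prod.ext_iff.1 (Sum.inr.inj this)).1
        exact hnd.1 (h4 ▸ hv')
    · intro v' hv' y hy
      rcases List.mem_append.1 hy with h3 | h3
      · exact h2 v' (List.mem_cons_of_mem _ hv') y h3
      · unfold prt at h3
        obtain ⟨z, -, hz⟩ := List.mem_map.1 h3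
        have h4 : v = v' := by
          have := (Prod.ext_iff.1 hz).2
          simpa using (Prod.ext_iff.1 (Sum.inr.inj this)).1
        exact hnd.1 (h4 ▸ hv')

/-- Adding a split row in a fresh chunk. -/
lemma srow_ext (hT : AXP T) (c : Fin k → ℕ) (hc : ∃ y y', c y ≠ c y') (i i' : ℕ)
    (l l' : List (Idx kx k)) (hl : l.length = l'.length) (h : T l = T l')
    (h1 : ∀ v, Miss i v l) (h2 : ∀ v, Miss i' v l') :
    T (l ++ srow i c) = T (l' ++ srow i' c) := by
  set cs : List ℕ := ((List.finRange k).map c).dedup with hcs
  have h3 := parts_ext hT c hc i i' cs (List.nodup_dedup _) l l' hl h (fun v _ => h1 v)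
    fun v _ => h2 v
  set P : ℕ → List (Idx kx k) := fun i =>
    (cs.map fun v => prt i v ((List.finRange k).filter fun y => decide (c y = v))).flatten
    with hP
  have hPi : ∀ i, P i = (P 0).map fun p => (i, p.2) := by
    intro i
    simp only [hP]
    rw [List.map_flatten, List.map_map]
    congr 1
    refine List.map_congr_left fun v _ => ?_
    simp [prt, Function.comp_def]
  have hSi : ∀ i, (srow i c : List (Idx kx k)) = (srow 0 c).map fun p => (i, p.2) := by
    intro i
    simp [srow, Function.comp_def]
  obtain ⟨w, hw⟩ := sel_ex (P 0) (srow 0 c) (by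
    intro x hx
    unfold srow at hx
    obtain ⟨y, -, hy⟩ := List.mem_map.1 hx
    simp only [hP]
    rw [List.mem_flatten]
    refine ⟨prt 0 (c y) ((List.finRange k).filter fun z => decide (c z = c y)), ?_, ?_⟩
    · exact List.mem_map.2 ⟨c y, by
        rw [hcs, List.mem_dedup]
        exact List.mem_map.2 ⟨y, List.mem_finRange y, rfl⟩, rfl⟩
    · unfold prt
      exact List.mem_map.2 ⟨y, by simp, hy⟩)
  have hwi : ∀ i, sel (P i) w = srow i c := by
    intro i
    rw [hPi, sel_map, hw, ← hSi]
  have h4 := ft_tail hT.ft w hl (x := P i) (x' := P i') (by rw [hPi i, hPi i']; simp) h3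
  rw [hwi, hwi] at h4
  exact h4

lemma srows_eq (hT : AXP T) (c : Fin k → ℕ) (hc : ∃ y y', c y ≠ c y') (n : ℕ)
    (l : List (Idx kx k)) (hl : Blw n l) (a : List ℕ) : ∀ b : List ℕ, a.length = b.length →
    a.Nodup → b.Nodup → (∀ j ∈ a, n ≤ j) → (∀ j ∈ b, n ≤ j) →
    T (l ++ (a.map fun j => srow j c).flatten) = T (l ++ (b.map fun j => srow j c).flatten) := by
  induction a using List.reverseRecOn with
  | nil =>
    intro b hb _ _ _ _
    have : b = [] := List.length_eq_zero_iff.1 (by simpa using hb.symm)
    rw [this]
  | append_singleton a i ih =>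
    intro b hab ha hb h1 h2
    rcases List.eq_nil_or_concat b with h3 | ⟨b0, i', h3⟩
    · rw [h3] at hab
      simp at hab
    · rw [List.concat_eq_append] at h3
      subst h3
      have hlen : a.length = b0.length := by simpa using hab
      have hna := List.nodup_append.1 ha
      have hnb := List.nodup_append.1 hb
      have h4 := ih b0 hlen hna.1 hnb.1 (fun j hj => h1 j (List.mem_append_left _ hj))
        fun j hj => h2 j (List.mem_append_left _ hj)
      simp only [List.map_append, List.flatten_append, List.map_cons, List.map_nil,
        List.flatten_cons, List.flatten_nil, List.append_nil]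
      rw [← List.append_assoc, ← List.append_assoc]
      have hmiss : ∀ (a : List ℕ) (i : ℕ), n ≤ i → i ∉ a → ∀ v,
          Miss i v (l ++ (a.map fun j => (srow j c : List (Idx kx k))).flatten) := by
        intro a i hi hia v y hy
        rcases List.mem_append.1 hy with h5 | h5
        · have := hl _ h5
          simp only at this
          omega
        · rw [List.mem_flatten] at h5
          obtain ⟨m, hm, hm2⟩ := h5
          obtain ⟨j, hj, rfl⟩ := List.mem_map.1 hm
          unfold srow at hm2
          obtain ⟨z, -, hz⟩ := List.mem_map.1 hm2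
          have h6 : j = i := (Prod.ext_iff.1 hz).1
          exact hia (h6 ▸ hj)
      refine srow_ext hT c hc i i' _ _ ?_ h4 (hmiss a i (h1 i (by simp)) ?_)
        (hmiss b0 i' (h2 i' (by simp)) ?_)
      · simp [List.length_flatten, srow, Function.comp_def, hlen]
      · intro h5
        exact hna.2.2 i h5 i (by simp) rfl
      · intro h5
        exact hnb.2.2 i' h5 i' (by simp) rfl

lemma rows_eq (hT : AXP T) (c : Fin k → ℕ) (hc : ∃ y y', c y ≠ c y')
    (hs : ∀ (n : ℕ) (l : List (Idx kx k)), Blw n l → T (l ++ row n 0) = T (l ++ srow n c)) (n : ℕ)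
    (l : List (Idx kx k)) (hl : Blw n l) (a : List ℕ) : a.Pairwise (· < ·) →
    (∀ j ∈ a, n ≤ j) →
    T (l ++ (a.map fun j => row j 0).flatten) = T (l ++ (a.map fun j => srow j c).flatten) := by
  induction a using List.reverseRecOn with
  | nil =>
    intro _ _
    rfl
  | append_singleton a i ih =>
    intro ha h1
    have hna := List.pairwise_append.1 ha
    have h4 := ih hna.1 fun j hj => h1 j (List.mem_append_left _ hj)
    simp only [List.map_append, List.flatten_append, List.map_cons, List.map_nil,
      List.flatten_cons, List.flatten_nil, List.append_nil]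
    rw [← List.append_assoc, ← List.append_assoc]
    have hblw : ∀ F : ℕ → List (Idx kx k), (∀ j, ∀ p ∈ F j, p.1 = j) →
        Blw i (l ++ (a.map F).flatten) := by
      intro F hF p hp
      rcases List.mem_append.1 hp with h5 | h5
      · exact lt_of_lt_of_le (hl p h5) (h1 i (by simp))
      · rw [List.mem_flatten] at h5
        obtain ⟨m, hm, hm2⟩ := h5
        obtain ⟨j, hj, rfl⟩ := List.mem_map.1 hm
        rw [hF j p hm2]
        exact hna.2.2 j hj i (by simp)
    have hr : ∀ j, ∀ p ∈ (row j 0 : List (Idx kx k)), p.1 = j := by
      intro j p hp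
      unfold row prt at hp
      obtain ⟨z, -, hz⟩ := List.mem_map.1 hp
      rw [← hz]
    have hr2 : ∀ j, ∀ p ∈ (srow j c : List (Idx kx k)), p.1 = j := by
      intro j p hp
      unfold srow at hp
      obtain ⟨z, -, hz⟩ := List.mem_map.1 hp
      rw [← hz]
    rw [hs i _ (hblw _ hr)]
    refine srow_ext hT c hc i i _ _ ?_ h4 ?_ ?_
    · simp [List.length_flatten, srow, row, prt, Function.comp_def]
    · intro v y hy
      have := hblw _ hr _ hy
      simp at this
    · intro v y hy
      have := hblw _ hr2 _ hy
      simp at this

end

theorem pf_SFA : T_SFA := by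
  intro kx k L T hT hS q n l js js' hl hjs hn _ hp
  obtain ⟨c, hc, hs⟩ := hS
  have h1 := rows_eq hT c hc hs n l hl js hjs hn
  have h2 : T (l ++ (js'.map fun j => row j 0).flatten) =
      T (l ++ (js'.map fun j => srow j c).flatten) := by
    have h3 := ft_perm hT.ft (fun j => row j 0) (fun j => srow j c)
      (fun j => by simp [row, prt, srow]) hp.symm l l [] [] rfl rfl (by simpa using h1)
    simpa using h3
  rw [h2, h1]
  have hnd : js.Nodup := hjs.imp fun h => ne_of_lt h
  exact srows_eq hT c hc n l hl js' js hp.length_eq (hp.nodup_iff.2 hnd) hnd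
    (fun j hj => hn j (hp.mem_iff.1 hj)) hn

end Pool.Agent.H85.FK
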